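import Pool.Agent.H.MP_670a4f_lc.Om

/-!
# MP_670a4f_lc: the question for colour classes with bounded chromatic numbers

PROOF. If `c` has infinitely many `k`-colourable classes, with colourings `f n` (`n` in the infinite set `N₀`), and there is no tail
splitting family, then one finds an uncountable set `Y` and an infinite set `N ⊆ N₀` such that all the functions `f n`, `n ∈ N`,
are constant on `Y` with the same value (treat the `k` values one after the other), so the colours in `N` do not occur on
`Y`. Conversely let `A` be a tail splitting family, without repetition. The colour `n` is allowed for the pair `a, b` if `n`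
belongs to exactly one of the sets `A a`, `A b`; the pair `a < b` gets the colour of Moore's rectangle colouring if it is
allowed, otherwise the first allowed colour.
-/

set_option autoImplicit false

namespace Pool.Agent.Results.MP_670a4f_lc.BoundedChromaticIff

open Pool.Agent.H.MP_670a4f_lc

/-- In ZFC the following are equivalent: there is a family `A` of sets of natural numbers indexed by the countable ordinals
such that every infinite set of natural numbers is split by all but countably many members of the family; there is a colouring of the pairs of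
countable ordinals with bipartite colour classes such that all but finitely many colours occur on every uncountable set; for some `k`
there is a colouring of the pairs of countable ordinals with infinitely many `k`-colourable colour classes
such that all but finitely many colours occur on every uncountable set. -/
theorem result : List.TFAE [
    ∃ A : {o : Ordinal.{0} // o < (Cardinal.aleph 1).ord} → Set ℕ,
      ∀ N : Set ℕ, N.Infinite → {a | ¬ ((N ∩ A a).Infinite ∧ (N \ A a).Infinite)}.Countable,
    ∃ c : Sym2 {o : Ordinal.{0} // o < (Cardinal.aleph 1).ord} → ℕ,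
      (∀ n : ℕ, ∃ f : {o : Ordinal.{0} // o < (Cardinal.aleph 1).ord} → Fin 2,
        ∀ a b, a ≠ b → c s(a, b) = n → f a ≠ f b) ∧
      ∀ X : Set {o : Ordinal.{0} // o < (Cardinal.aleph 1).ord}, ¬ X.Countable →
        {n : ℕ | ¬ ∃ a ∈ X, ∃ b ∈ X, a ≠ b ∧ c s(a, b) = n}.Finite,
    ∃ (k : ℕ) (c : Sym2 {o : Ordinal.{0} // o < (Cardinal.aleph 1).ord} → ℕ),
      {n : ℕ | ∃ f : {o : Ordinal.{0} // o < (Cardinal.aleph 1).ord} → Fin k,
        ∀ a b, a ≠ b → c s(a, b) = n → f a ≠ f b}.Infinite ∧
      ∀ X : Set {o : Ordinal.{0} // o < (Cardinal.aleph 1).ord}, ¬ X.Countable →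
        {n : ℕ | ¬ ∃ a ∈ X, ∃ b ∈ X, a ≠ b ∧ c s(a, b) = n}.Finite] := by
  tfae_have 1 → 2 := by
    rintro ⟨A, hA⟩
    exact good_of_ts om_countable om_cp hA
  tfae_have 2 → 3 := by
    rintro ⟨c, h1, h2⟩
    refine ⟨2, c, ?_, h2⟩
    have h3 : {n : ℕ | ∃ f : {o : Ordinal.{0} // o < (Cardinal.aleph 1).ord} → Fin 2,
        ∀ a b, a ≠ b → c s(a, b) = n → f a ≠ f b} = Set.univ := by
      ext n
      exact ⟨fun _ => Set.mem_univ n, fun _ => h1 n⟩
    rw [h3]
    exact Set.infinite_univ
  tfae_have 3 → 1 := by
    rintro ⟨k, c, h1, h2⟩
    exact ts_of_bounded om_cp h2 h1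
  tfae_finish

end Pool.Agent.Results.MP_670a4f_lc.BoundedChromaticIff
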