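import Pool.Agent.H.MP_670a4f_lc.Main

set_option autoImplicit false

namespace Pool.Agent.Results.MP_670a4f_lc.OmittedBanachZero

open Pool.Agent.H670

theorem iio_countable (a : {o : Ordinal.{0} // o < (Cardinal.aleph 1).ord}) :
    (Set.Iio a).Countable := by
  have h1 : (Set.Iio a.1 : Set Ordinal.{0}).Countable := by
    rw [Cardinal.countable_iff_lt_aleph_one, Cardinal.mk_Iio_ordinal]
    have h2 : a.1.card < Cardinal.aleph 1 := Cardinal.lt_ord.mp a.2
    have h3 := Cardinal.lift_lt.{0, 1}.mpr h2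
    simpa using h3
  have hm : Set.MapsTo (Subtype.val) (Set.Iio a) (Set.Iio a.1 : Set Ordinal.{0}) :=
    fun x hx => hx
  exact hm.countable_of_injOn (fun x _ y _ h => Subtype.ext h) h1

theorem mk_eq : Cardinal.mk {o : Ordinal.{0} // o < (Cardinal.aleph 1).ord} =
    Cardinal.aleph 1 := by
  have h : Cardinal.mk (Set.Iio (Cardinal.aleph 1).ord : Set Ordinal.{0}) = Cardinal.aleph 1 := by
    rw [Cardinal.mk_Iio_ordinal]
    simp
  exact h

theorem result :
    ∃ c : Sym2 {o : Ordinal.{0} // o < (Cardinal.aleph 1).ord} → ℕ,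
      (∀ a b d : {o : Ordinal.{0} // o < (Cardinal.aleph 1).ord},
          a ≠ b → b ≠ d → a ≠ d →
          ¬ (c s(a, b) = c s(b, d) ∧ c s(b, d) = c s(a, d))) ∧
      (∀ n : ℕ, ∃ side : {o : Ordinal.{0} // o < (Cardinal.aleph 1).ord} → Bool,
          ∀ a b, a ≠ b → c s(a, b) = n → side a ≠ side b) ∧
      (∀ X Y : Set {o : Ordinal.{0} // o < (Cardinal.aleph 1).ord},
          ¬ X.Countable → ¬ Y.Countable → ∀ ε : ℝ, 0 < ε →
          ∃ L₀ : ℕ, ∀ L : ℕ, L₀ ≤ L → ∀ a : ℕ,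
            (({n : ℕ | (a ≤ n ∧ n < a + L) ∧
              ¬ ∃ x ∈ X, ∃ y ∈ Y, x < y ∧ c s(x, y) = n}.ncard : ℝ)) ≤ ε * L) := by
  classical
  have hc := iio_countable
  have hu : ¬ (Set.univ : Set {o : Ordinal.{0} // o < (Cardinal.aleph 1).ord}).Countable := by
    intro h
    rw [Cardinal.countable_iff_lt_aleph_one, Cardinal.mk_univ, mk_eq] at h
    exact lt_irrefl _ h
  obtain ⟨S⟩ := exists_cseq hc
  obtain ⟨ρ, hρ⟩ : ∃ ρ : {o : Ordinal.{0} // o < (Cardinal.aleph 1).ord} → ℕ → Bool,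
      Function.Injective ρ := by
    have h1 : Cardinal.lift.{0} (Cardinal.mk {o : Ordinal.{0} // o < (Cardinal.aleph 1).ord}) ≤
        Cardinal.lift.{1} (Cardinal.mk (ℕ → Bool)) := by
      rw [mk_eq]
      have h2 : Cardinal.mk (ℕ → Bool) = Cardinal.continuum := by simp
      rw [h2]
      simpa using Cardinal.aleph_one_le_continuum
    obtain ⟨f⟩ := Cardinal.lift_mk_le'.mp h1
    exact ⟨f, f.injective⟩
  let c : Sym2 {o : Ordinal.{0} // o < (Cardinal.aleph 1).ord} → ℕ :=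
    Sym2.lift ⟨fun a b => if a < b then cc S ρ a b else if b < a then cc S ρ b a else 0, by
      intro a b
      rcases lt_trichotomy a b with h | h | h
      · simp [h, not_lt_of_gt h]
      · simp [h]
      · simp [h, not_lt_of_gt h]⟩
  have hcs : ∀ a b, c s(a, b) = if a < b then cc S ρ a b else if b < a then cc S ρ b a else 0 :=
    fun a b => Sym2.lift_mk _ a b
  have hlt : ∀ a b, a < b → c s(a, b) = cc S ρ a b := by
    intro a b h
    rw [hcs, if_pos h]
  have hlab : ∀ a b, a ≠ b → lab (node ρ) (c s(a, b)) a ≠ lab (node ρ) (c s(a, b)) b := by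
    intro a b hab
    rcases lt_or_gt_of_ne hab with h | h
    · rw [hlt a b h]
      exact cc_mem S ρ hρ h
    · rw [Sym2.eq_swap, hlt b a h]
      exact (cc_mem S ρ hρ h).symm
  have hside : ∀ n : ℕ, ∃ side : {o : Ordinal.{0} // o < (Cardinal.aleph 1).ord} → Bool,
      ∀ a b, a ≠ b → c s(a, b) = n → side a ≠ side b := by
    intro n
    refine ⟨fun a => decide (lab (node ρ) n a = 0), ?_⟩
    intro a b hab hn
    have h1 := hlab a b hab
    rw [hn] at h1
    have h2 : ∀ u v : ZMod 2, u ≠ v → decide (u = 0) ≠ decide (v = 0) := by decide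
    exact h2 _ _ h1
  refine ⟨c, ?_, hside, ?_⟩
  · rintro a b d hab hbd had ⟨h1, h2⟩
    obtain ⟨side, hs⟩ := hside (c s(a, d))
    have e1 := hs a b hab (h1.trans h2)
    have e2 := hs b d hbd h2
    have e3 := hs a d had rfl
    revert e1 e2 e3
    cases side a <;> cases side b <;> cases side d <;> simp
  · intro X Y hX hY ε hε
    obtain ⟨m, hm⟩ : ∃ m : ℕ, 1 / ε * 2 ≤ (2 : ℝ) ^ m :=
      pow_unbounded_of_one_lt (1 / ε * 2) (by norm_num : (1 : ℝ) < 2) |>.imp (fun _ h => h.le)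
    obtain ⟨J, hJ⟩ := omitted_density S ρ hρ hc hu hX hY m
    obtain ⟨L0, hL0⟩ := exists_nat_ge ((2 : ℝ) ^ J)
    refine ⟨L0, ?_⟩
    intro L hL a
    have h1 := hJ a L
    have hset : {n : ℕ | (a ≤ n ∧ n < a + L) ∧
        ¬ ∃ x ∈ X, ∃ y ∈ Y, x < y ∧ c s(x, y) = n} =
        {n | n ∈ Set.Ico a (a + L) ∧ ¬ ∃ α ∈ X, ∃ β ∈ Y, α < β ∧ cc S ρ α β = n} := by
      ext n
      simp only [Set.mem_setOf_eq, Set.mem_Ico]
      refine and_congr_right (fun _ => not_congr ?_)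
      constructor
      · rintro ⟨x, hx, y, hy, hxy, h⟩
        exact ⟨x, hx, y, hy, hxy, by rw [← hlt x y hxy]; exact h⟩
      · rintro ⟨x, hx, y, hy, hxy, h⟩
        exact ⟨x, hx, y, hy, hxy, by rw [hlt x y hxy]; exact h⟩
    rw [hset]
    set k := {n | n ∈ Set.Ico a (a + L) ∧
      ¬ ∃ α ∈ X, ∃ β ∈ Y, α < β ∧ cc S ρ α β = n}.ncard with hk
    have h2 : (k : ℝ) * 2 ^ m ≤ L + 2 ^ J := by exact_mod_cast h1
    have h3 : (2 : ℝ) ^ J ≤ L := le_trans hL0 (by exact_mod_cast hL)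
    have h4 : (0 : ℝ) ≤ k := Nat.cast_nonneg _
    have h5 : (k : ℝ) * (1 / ε * 2) ≤ k * 2 ^ m := mul_le_mul_of_nonneg_left hm h4
    have h6 : (k : ℝ) * (1 / ε * 2) ≤ 2 * L := by linarith
    have h7 : (k : ℝ) = ε * (k * (1 / ε)) := by field_simp
    have h8 : (k : ℝ) * (1 / ε) ≤ L := by linarith
    rw [h7]
    exact mul_le_mul_of_nonneg_left h8 hε.le

end Pool.Agent.Results.MP_670a4f_lc.OmittedBanachZero
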