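import Pool.Agent.H.MP_670a4f_lc.Omega1

set_option autoImplicit false

namespace Pool.Agent.Results.MP_670a4f_lc.SlowCliqueGrowth

open Pool.Agent.H670

theorem result (r : ℕ → ℕ) (hr : Filter.Tendsto r Filter.atTop Filter.atTop) :
    ∃ c : Sym2 {o : Ordinal.{0} // o < (Cardinal.aleph 1).ord} → ℕ,
      (∀ n : ℕ, ∃ f : {o : Ordinal.{0} // o < (Cardinal.aleph 1).ord} → ℕ,
          (∀ a, f a ≤ r n) ∧ ∀ a b, a ≠ b → c s(a, b) = n → f a ≠ f b) ∧
      (∀ n : ℕ, ∀ K : Finset {o : Ordinal.{0} // o < (Cardinal.aleph 1).ord},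
          (∀ a ∈ K, ∀ b ∈ K, a ≠ b → c s(a, b) = n) → K.card ≤ r n + 1) ∧
      (∀ X Y : Set {o : Ordinal.{0} // o < (Cardinal.aleph 1).ord},
          ¬ X.Countable → ¬ Y.Countable →
          {n : ℕ | ¬ ∃ x ∈ X, ∃ y ∈ Y, x < y ∧ c s(x, y) = n}.Finite) := by
  classical
  obtain ⟨S⟩ := exists_cseq iio_countable
  obtain ⟨ρ, hρ⟩ := exists_reals
  let k : ℕ → ℕ := fun n => Nat.log 2 (r n + 1)
  have hk : Filter.Tendsto k Filter.atTop Filter.atTop := by
    rw [Filter.tendsto_atTop]
    intro b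
    filter_upwards [(Filter.tendsto_atTop.mp hr) (2 ^ b)] with n hn
    exact Nat.le_log_of_pow_le (by norm_num) (le_trans hn (Nat.le_succ _))
  let lb : ℕ → {o : Ordinal.{0} // o < (Cardinal.aleph 1).ord} → List Bool :=
    fun n a => (List.range (k n)).map (ρ a)
  have hlb : ∀ a b, a ≠ b → ∃ N, ∀ n ≥ N, lb n a ≠ lb n b := by
    intro a b hab
    obtain ⟨i, hi⟩ := Function.ne_iff.mp (fun h => hab (hρ h))
    obtain ⟨N, hN⟩ := Filter.eventually_atTop.mp ((Filter.tendsto_atTop.mp hk) (i + 1))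
    refine ⟨N, ?_⟩
    intro n hn h
    have h1 : i < k n := hN n hn
    exact hi (List.map_inj_left.mp h i (List.mem_range.mpr h1))
  have hinf : ∀ a b, a ≠ b → {n | lb n a ≠ lb n b}.Infinite := by
    intro a b hab
    obtain ⟨N, hN⟩ := hlb a b hab
    apply Set.infinite_of_forall_exists_gt
    intro m
    exact ⟨max N m + 1, hN _ (le_trans (le_max_left _ _) (Nat.le_succ _)),
      lt_of_le_of_lt (le_max_right _ _) (Nat.lt_succ_self _)⟩
  have hcc : ∀ a b, a ≠ b → lb (sym (gc S lb) s(a, b)) a ≠ lb (sym (gc S lb) s(a, b)) b := by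
    intro a b hab
    rcases lt_or_gt_of_ne hab with h | h
    · rw [sym_of_lt _ h]
      exact Nat.nth_mem_of_infinite (hinf a b hab) _
    · rw [Sym2.eq_swap, sym_of_lt _ h]
      exact (Nat.nth_mem_of_infinite (hinf b a hab.symm) _ :
        lb (gc S lb b a) b ≠ lb (gc S lb b a) a).symm
  have hf : ∀ n : ℕ, ∃ f : {o : Ordinal.{0} // o < (Cardinal.aleph 1).ord} → ℕ,
      (∀ a, f a ≤ r n) ∧ ∀ a b, a ≠ b → sym (gc S lb) s(a, b) = n → f a ≠ f b := by
    intro n
    have hcard : Fintype.card (Fin (k n) → Bool) = 2 ^ k n := by simp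
    have hpow : 2 ^ k n ≤ r n + 1 := Nat.pow_log_le_self 2 (by omega)
    let g := Fintype.equivFin (Fin (k n) → Bool)
    refine ⟨fun a => (g (fun i => ρ a i)).val, ?_, ?_⟩
    · intro a
      have h1 := (g (fun i => ρ a i)).isLt
      exact Nat.lt_succ_iff.mp (lt_of_lt_of_le (lt_of_lt_of_eq h1 hcard) hpow)
    · intro a b hab hn h
      have h1 := hcc a b hab
      rw [hn] at h1
      apply h1
      have h2 : (fun i : Fin (k n) => ρ a i) = (fun i : Fin (k n) => ρ b i) :=
        g.injective (Fin.ext h)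
      apply List.map_inj_left.mpr
      intro i hi
      exact congrFun h2 ⟨i, List.mem_range.mp hi⟩
  refine ⟨sym (gc S lb), hf, ?_, ?_⟩
  · intro n K hK
    obtain ⟨f, hf1, hf2⟩ := hf n
    have h1 : K.card ≤ (Finset.range (r n + 1)).card := by
      apply Finset.card_le_card_of_injOn f
      · intro a _
        simp only [Finset.coe_range, Set.mem_Iio]
        exact Nat.lt_succ_of_le (hf1 a)
      · intro a ha b hb hab
        by_contra hne
        exact hf2 a b hne (hK a ha b hb hne) hab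
    simpa using h1
  · intro X Y hX hY
    obtain ⟨X', hX', Y', hY', hXu, hYu, hatt⟩ :=
      label_theorem S lb iio_countable univ_not_countable hX hY
    obtain ⟨y, hy⟩ : Y'.Nonempty := by
      by_contra h
      rw [Set.not_nonempty_iff_eq_empty] at h
      rw [h] at hYu
      exact hYu Set.countable_empty
    obtain ⟨x, hx, hxy⟩ : ∃ x ∈ X', x ≠ y := by
      by_contra h
      push Not at h
      exact hXu ((Set.countable_singleton y).mono (fun x hx => h x hx))
    obtain ⟨N, hN⟩ := hlb x y hxy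
    refine (Set.finite_Iio N).subset ?_
    intro n hn
    by_contra hcon
    apply hn
    obtain ⟨α, hα, β, hβ, h1, h2⟩ := hatt x hx y hy n (hN n (not_lt.mp hcon))
    exact ⟨α, hα, β, hβ, h1, by rw [sym_of_lt _ h1]; exact h2⟩

end Pool.Agent.Results.MP_670a4f_lc.SlowCliqueGrowth
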