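import Mathlib
import Pool.Agent.H.MP_670a4f_lc.Omega1
import Pool.Agent.H.MP_670a4f_lc.Q.Colour

/-!
MP_670a4f_lc, Q1, answer YES, for an arbitrary set of cardinality `ℵ₁` (in particular for `ω₁`).
-/

set_option autoImplicit false

universe u

namespace Pool.Agent.Results.MP_670a4f_lc.TriangleFreeColouring

open Pool.Agent.H.MP_670a4f_lc

/-- the main theorem of `Q.Colour` as a colouring of unordered pairs of the ordinals below `ω₁` -/
theorem om : ∃ c : Sym2 Om → ℕ,
    (∀ a b d : Om, a ≠ b → b ≠ d → a ≠ d → ¬ (c s(a, b) = c s(b, d) ∧ c s(b, d) = c s(a, d))) ∧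
    ∀ X : Set Om, ¬ X.Countable →
      {n : ℕ | ¬ ∃ a ∈ X, ∃ b ∈ X, a ≠ b ∧ c s(a, b) = n}.Finite := by
  obtain ⟨g, hg1, hg2⟩ := Pool.Agent.H.MP_670a4f_lc.Q.main
  have key : ∀ a b d : Om, a < b → b < d →
      ¬ (Pool.Agent.H670.sym g s(a, b) = Pool.Agent.H670.sym g s(b, d) ∧
        Pool.Agent.H670.sym g s(b, d) = Pool.Agent.H670.sym g s(a, d)) := by
    intro a b d hab hbd h
    rw [Pool.Agent.H670.sym_of_lt _ hab, Pool.Agent.H670.sym_of_lt _ hbd,
      Pool.Agent.H670.sym_of_lt _ (lt_trans hab hbd)] at h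
    exact hg1 a b d hab hbd h
  have hsw : ∀ u v : Om,
      Pool.Agent.H670.sym g s(u, v) = Pool.Agent.H670.sym g s(v, u) := fun u v => by
    rw [Sym2.eq_swap]
  refine ⟨Pool.Agent.H670.sym g, ?_, ?_⟩
  · intro a b d hab hbd had h
    obtain ⟨h1, h2⟩ := h
    rcases lt_or_gt_of_ne hab with ab | ab <;> rcases lt_or_gt_of_ne hbd with bd | bd <;>
      rcases lt_or_gt_of_ne had with ad | ad
    · exact key a b d ab bd ⟨h1, h2⟩
    · exact absurd (lt_trans ab bd) (lt_asymm ad)
    · exact key a d b ad bd ⟨h2.symm.trans (hsw b d), (hsw d b).trans h1.symm⟩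
    · exact key d a b ad ab ⟨((hsw d a).trans h2.symm).trans h1.symm, h1.trans (hsw b d)⟩
    · exact key b a d ab ad ⟨(hsw b a).trans (h1.trans h2), h2.symm⟩
    · exact key b d a bd ad ⟨h2.trans (hsw a d),
        ((hsw d a).trans h2.symm).trans (h1.symm.trans (hsw a b))⟩
    · exact absurd (lt_trans bd ab) (lt_asymm ad)
    · exact key d b a bd ab ⟨(hsw d b).trans (h1.symm.trans (hsw a b)),
        (hsw b a).trans ((h1.trans h2).trans (hsw a d))⟩
  · intro X hX
    obtain ⟨N, hN⟩ := hg2 X hX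
    apply (Set.finite_Iio N).subset
    intro n hn
    by_contra hc
    obtain ⟨x, hx, y, hy, hxy, h⟩ := hN n (not_lt.1 hc)
    exact hn ⟨x, hx, y, hy, hxy.ne, by rw [Pool.Agent.H670.sym_of_lt _ hxy]; exact h⟩

theorem mk_om : Cardinal.mk Om = Cardinal.lift.{1, 0} (Cardinal.aleph 1) := by
  have h := Cardinal.mk_Iio_ordinal (Cardinal.aleph 1).ord
  rw [Cardinal.card_ord] at h
  exact h

/-- On every set of cardinality `ℵ₁` there is a colouring of the pairs with natural numbers without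
monochromatic triangle such that on every uncountable subset all but finitely many colours occur. -/
theorem result {α : Type u} (hα : Cardinal.mk α = Cardinal.aleph 1) :
    ∃ c : Sym2 α → ℕ,
      (∀ a b d : α, a ≠ b → b ≠ d → a ≠ d →
        ¬ (c s(a, b) = c s(b, d) ∧ c s(b, d) = c s(a, d))) ∧
      ∀ X : Set α, ¬ X.Countable →
        {n : ℕ | ∃ a ∈ X, ∃ b ∈ X, a ≠ b ∧ c s(a, b) = n}ᶜ.Finite := by
  have h : Cardinal.lift.{1, u} (Cardinal.mk α) = Cardinal.lift.{u, 1} (Cardinal.mk Om) := by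
    rw [hα, mk_om, Cardinal.lift_lift, Cardinal.lift_aleph, Cardinal.lift_aleph]
    simp
  obtain ⟨e⟩ := Cardinal.lift_mk_eq'.1 h
  obtain ⟨c, hc1, hc2⟩ := om
  refine ⟨fun p => c (p.map e), ?_, ?_⟩
  · intro a b d hab hbd had h
    exact hc1 (e a) (e b) (e d) (e.injective.ne hab) (e.injective.ne hbd) (e.injective.ne had)
      (by simpa using h)
  · intro X hX
    have h1 : ¬ (e '' X).Countable := fun h2 => hX (by
      have h3 := h2.preimage e.injective
      rwa [Set.preimage_image_eq _ e.injective] at h3)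
    refine (hc2 _ h1).subset ?_
    intro n hn hn2
    apply hn
    obtain ⟨_, ⟨a, ha, rfl⟩, _, ⟨b, hb, rfl⟩, hab, h2⟩ := hn2
    exact ⟨a, ha, b, hb, fun h3 => hab (by rw [h3]), by simpa using h2⟩

end Pool.Agent.Results.MP_670a4f_lc.TriangleFreeColouring

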